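import Pool.Agent.Helper5.PQ.Stm

/-! # Project PQ, package MZ: from naturals to integers -/

namespace Pool.Agent.Helper78.PQ

open Finset Classical Pool.Agent.Helper5.RD Pool.Agent.Helper5.PQ
open scoped Pointwise

/-- the side of `A` of sign `s` -/
noncomputable def side (s : ℤ) (A : Finset ℤ) : Finset ℕ :=
  (A.filter (fun x => 0 < s * x)).image Int.natAbs

theorem mem_side {s : ℤ} (hs : s = 1 ∨ s = -1) (A : Finset ℤ) (n : ℕ) :
    n ∈ side s A ↔ 0 < n ∧ s * (n : ℤ) ∈ A := by
  have hss : s * s = 1 := by rcases hs with rfl | rfl <;> norm_num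
  have habs : s.natAbs = 1 := by rcases hs with rfl | rfl <;> rfl
  rw [side, Finset.mem_image]
  constructor
  · rintro ⟨x, hx, rfl⟩
    rw [Finset.mem_filter] at hx
    have h1 : (x.natAbs : ℤ) = s * x := by
      rcases hs with rfl | rfl <;> omega
    have h2 : s * (x.natAbs : ℤ) = x := by rw [h1, ← mul_assoc, hss, one_mul]
    refine ⟨?_, by rw [h2]; exact hx.1⟩
    have h3 := hx.2
    rw [← h1] at h3
    exact_mod_cast h3
  · rintro ⟨h1, h2⟩
    refine ⟨s * n, Finset.mem_filter.2 ⟨h2, ?_⟩, ?_⟩
    · rw [← mul_assoc, hss, one_mul]; exact_mod_cast h1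
    · rw [Int.natAbs_mul, habs, one_mul, Int.natAbs_natCast]

theorem side_card_le {s : ℤ} (hs : s = 1 ∨ s = -1) (A : Finset ℤ) : (side s A).card ≤ A.card := by
  rw [side]
  exact Finset.card_image_le.trans (Finset.card_filter_le _ _)

/-- the pairs `a, q a` in `A` are those of the two sides -/
theorem pairs_le (A : Finset ℤ) (h0 : (0 : ℤ) ∉ A) (q : ℕ) :
    (A.filter (fun a => (q : ℤ) * a ∈ A)).card ≤
      ((side 1 A).filter (fun a => q * a ∈ side 1 A)).card +
      ((side (-1) A).filter (fun a => q * a ∈ side (-1) A)).card := by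
  have h1 : A.filter (fun a => (q : ℤ) * a ∈ A) ⊆
      ((side 1 A).filter (fun a => q * a ∈ side 1 A)).image (fun n : ℕ => (1 : ℤ) * n) ∪
      ((side (-1) A).filter (fun a => q * a ∈ side (-1) A)).image (fun n : ℕ => (-1 : ℤ) * n) := by
    intro a ha
    rw [Finset.mem_filter] at ha
    obtain ⟨ha1, ha2⟩ := ha
    have hq0 : q ≠ 0 := by
      rintro rfl
      apply h0
      simpa using ha2
    rw [Finset.mem_union]
    rcases lt_trichotomy a 0 with h | h | h
    · right
      refine Finset.mem_image.2 ⟨a.natAbs, Finset.mem_filter.2 ⟨?_, ?_⟩, by omega⟩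
      · rw [mem_side (Or.inr rfl)]
        refine ⟨by omega, ?_⟩
        have : (-1 : ℤ) * (a.natAbs : ℤ) = a := by omega
        rwa [this]
      · rw [mem_side (Or.inr rfl)]
        refine ⟨Nat.mul_pos (Nat.pos_of_ne_zero hq0) (by omega), ?_⟩
        have : (-1 : ℤ) * ((q * a.natAbs : ℕ) : ℤ) = q * a := by
          push_cast
          have e : |a| = -a := abs_of_neg h
          rw [e]; ring
        rwa [this]
    · exact absurd (h ▸ ha1) h0
    · left
      refine Finset.mem_image.2 ⟨a.natAbs, Finset.mem_filter.2 ⟨?_, ?_⟩, by omega⟩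
      · rw [mem_side (Or.inl rfl)]
        refine ⟨by omega, ?_⟩
        have : (1 : ℤ) * (a.natAbs : ℤ) = a := by omega
        rwa [this]
      · rw [mem_side (Or.inl rfl)]
        refine ⟨Nat.mul_pos (Nat.pos_of_ne_zero hq0) (by omega), ?_⟩
        have : (1 : ℤ) * ((q * a.natAbs : ℕ) : ℤ) = q * a := by
          push_cast
          have e : |a| = a := abs_of_pos h
          rw [e]; ring
        rwa [this]
  exact (Finset.card_le_card h1).trans ((Finset.card_union_le _ _).trans
    (Nat.add_le_add Finset.card_image_le Finset.card_image_le))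

/-- the sumset of a side -/
theorem sum_le {s : ℤ} (hs : s = 1 ∨ s = -1) (A B : Finset ℤ) :
    ((((side s A).image (Nat.cast : ℕ → ℤ) ×ˢ (B.image (fun b => s * b))).image
      (fun q => q.1 + q.2)).card) ≤ (A + B).card := by
  have hss : s * s = 1 := by rcases hs with rfl | rfl <;> norm_num
  have hs0 : s ≠ 0 := by rcases hs with rfl | rfl <;> norm_num
  have h1 : (((side s A).image (Nat.cast : ℕ → ℤ) ×ˢ (B.image (fun b => s * b))).image
      (fun q => q.1 + q.2)) ⊆ (A + B).image (fun z => s * z) := by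
    intro z hz
    obtain ⟨q, hq, rfl⟩ := Finset.mem_image.1 hz
    rw [Finset.mem_product] at hq
    obtain ⟨n, hn, h2⟩ := Finset.mem_image.1 hq.1
    obtain ⟨b, hb, h3⟩ := Finset.mem_image.1 hq.2
    rw [mem_side hs] at hn
    refine Finset.mem_image.2 ⟨s * n + b, Finset.add_mem_add hn.2 hb, ?_⟩
    rw [mul_add, ← mul_assoc, hss, one_mul, h3, h2]
  exact (Finset.card_le_card h1).trans Finset.card_image_le

theorem side_zero {s : ℤ} (hs : s = 1 ∨ s = -1) (A : Finset ℤ) : 0 ∉ side s A := by
  rw [mem_side hs]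
  omega

theorem side_ne (A : Finset ℤ) (hA : A.Nonempty) (h0 : (0 : ℤ) ∉ A) :
    ∃ s : ℤ, (s = 1 ∨ s = -1) ∧ (side s A).Nonempty := by
  obtain ⟨a, ha⟩ := hA
  rcases lt_trichotomy a 0 with h | h | h
  · refine ⟨-1, Or.inr rfl, a.natAbs, ?_⟩
    rw [mem_side (Or.inr rfl)]
    refine ⟨by omega, ?_⟩
    have : (-1 : ℤ) * (a.natAbs : ℤ) = a := by omega
    rwa [this]
  · exact absurd (h ▸ ha) h0
  · refine ⟨1, Or.inl rfl, a.natAbs, ?_⟩
    rw [mem_side (Or.inl rfl)]
    refine ⟨by omega, ?_⟩
    have : (1 : ℤ) * (a.natAbs : ℤ) = a := by omega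
    rwa [this]

theorem p_MZ (hMN : S_MN) : S_MZ := by
  intro δ θ ε hδ hθ hε
  obtain ⟨c, hc, H⟩ := hMN (δ / 2) (θ / 2) ε (by positivity) (by positivity) hε
  obtain ⟨m, hm⟩ : ∃ m : ℝ, m = min 1 (δ / 2) := ⟨_, rfl⟩
  have hm0 : 0 < m := by rw [hm]; positivity
  have hm1 : m ≤ 1 := by rw [hm]; exact min_le_left _ _
  have hm2 : m ≤ δ / 2 := by rw [hm]; exact min_le_right _ _
  have hmm : 0 < m ^ (|1 - ε|) := Real.rpow_pos_of_pos hm0 _
  refine ⟨c * m ^ (|1 - ε|), by positivity, ?_⟩
  intro A Q hA h0 hQ hθQ B hB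
  have rB : (1 : ℝ) ≤ B.card := by exact_mod_cast Finset.card_pos.2 hB
  have rA : (1 : ℝ) ≤ A.card := by exact_mod_cast Finset.card_pos.2 hA
  have hlA : 0 ≤ Real.log A.card := Real.log_nonneg rA
  -- it is enough to find a large side with many primes
  suffices hsuff : ∃ s : ℤ, (s = 1 ∨ s = -1) ∧ (side s A).Nonempty ∧
      m * A.card ≤ ((side s A).card : ℝ) ∧ ∃ Q' : Finset ℕ,
      (∀ q ∈ Q', q.Prime ∧ δ / 2 * (side s A).card ≤
        (((side s A).filter (fun a => q * a ∈ side s A)).card : ℝ)) ∧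
      θ / 2 * Real.log (side s A).card ≤ Q'.card by
    obtain ⟨s, hs, hne, hbig, Q', hQ', hθ'⟩ := hsuff
    have hs0 : s ≠ 0 := by rcases hs with rfl | rfl <;> norm_num
    have h1 := H (side s A) Q' hne (side_zero hs A) hQ' hθ' (B.image (fun b => s * b)) (hB.image _)
    have hBc : (B.image (fun b => s * b)).card = B.card :=
      Finset.card_image_of_injective B (mul_right_injective₀ hs0)
    rw [hBc] at h1
    have h2 : ((((side s A).image (Nat.cast : ℕ → ℤ) ×ˢ (B.image (fun b => s * b))).image
      (fun q => q.1 + q.2)).card : ℝ) ≤ ((A + B).card : ℝ) := by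
      exact_mod_cast sum_le hs A B
    refine le_trans ?_ (h1.trans h2)
    rw [mul_assoc]
    apply mul_le_mul_of_nonneg_left _ hc.le
    have rS : (1 : ℝ) ≤ (side s A).card := by exact_mod_cast Finset.card_pos.2 hne
    have rSA : ((side s A).card : ℝ) ≤ A.card := by exact_mod_cast side_card_le hs A
    have pAB : 0 < (A.card : ℝ) * B.card := by positivity
    have pSB : 0 < ((side s A).card : ℝ) * B.card := by positivity
    rcases le_total ε 1 with he | he
    · have e1 : |1 - ε| = 1 - ε := abs_of_nonneg (by linarith)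
      rw [e1, ← Real.mul_rpow hm0.le pAB.le]
      apply Real.rpow_le_rpow (by positivity) _ (by linarith)
      rw [← mul_assoc]
      gcongr
    · have h3 : ((A.card : ℝ) * B.card) ^ (1 - ε) ≤ (((side s A).card : ℝ) * B.card) ^ (1 - ε) := by
        apply Real.rpow_le_rpow_of_nonpos pSB _ (by linarith)
        gcongr
      have h4 : m ^ (|1 - ε|) ≤ 1 := Real.rpow_le_one hm0.le hm1 (abs_nonneg _)
      calc m ^ (|1 - ε|) * ((A.card : ℝ) * B.card) ^ (1 - ε)
          ≤ 1 * ((A.card : ℝ) * B.card) ^ (1 - ε) :=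
            mul_le_mul_of_nonneg_right h4 (by positivity)
        _ ≤ _ := by rw [one_mul]; exact h3
  rcases Q.eq_empty_or_nonempty with hQe | hQne
  · -- no primes: one element
    subst hQe
    obtain ⟨s, hs, hne⟩ := side_ne A hA h0
    have h1 : Real.log A.card ≤ 0 := by
      rw [Finset.card_empty, Nat.cast_zero] at hθQ
      by_contra h
      push_neg at h
      have := mul_pos hθ h
      linarith
    have h2 : A.card = 1 := by
      by_contra h
      have h3 : 2 ≤ A.card := by
        have := Finset.card_pos.2 hA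
        omega
      have h4 : (1 : ℝ) < A.card := by exact_mod_cast (by omega : 1 < A.card)
      have := Real.log_pos h4
      linarith
    have h3 : (side s A).card = 1 := by
      have h4 := side_card_le hs A
      have h5 := Finset.card_pos.2 hne
      omega
    refine ⟨s, hs, hne, ?_, ∅, by simp, ?_⟩
    · rw [h2, h3]
      push_cast
      linarith
    · rw [h3]
      simp
  · -- the primes with many pairs on one side
    obtain ⟨Qs, hQs⟩ : ∃ Qs : ℤ → Finset ℕ, Qs = fun s => Q.filter (fun q => δ / 2 * A.card ≤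
      (((side s A).filter (fun a => q * a ∈ side s A)).card : ℝ)) := ⟨_, rfl⟩
    have hcov : Q ⊆ Qs 1 ∪ Qs (-1) := by
      intro q hq
      have h1 := (hQ q hq).2
      have h2 : ((A.filter (fun a => (q : ℤ) * a ∈ A)).card : ℝ) ≤
          (((side 1 A).filter (fun a => q * a ∈ side 1 A)).card : ℝ) +
          (((side (-1) A).filter (fun a => q * a ∈ side (-1) A)).card : ℝ) := by
        exact_mod_cast pairs_le A h0 q
      rw [Finset.mem_union, hQs]
      simp only [Finset.mem_filter]
      by_contra hcon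
      push_neg at hcon
      have h3 := hcon.1 hq
      have h4 := hcon.2 hq
      linarith
    have hcard : Q.card ≤ (Qs 1).card + (Qs (-1)).card :=
      (Finset.card_le_card hcov).trans (Finset.card_union_le _ _)
    have hone : ∃ s : ℤ, (s = 1 ∨ s = -1) ∧ Q.card ≤ 2 * (Qs s).card := by
      rcases le_total (Qs 1).card (Qs (-1)).card with h | h
      · exact ⟨-1, Or.inr rfl, by omega⟩
      · exact ⟨1, Or.inl rfl, by omega⟩
    obtain ⟨s, hs, hsQ⟩ := hone
    have hQpos := Finset.card_pos.2 hQne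
    have hQsne : (Qs s).Nonempty := Finset.card_pos.1 (by omega)
    have rSA : ((side s A).card : ℝ) ≤ A.card := by exact_mod_cast side_card_le hs A
    obtain ⟨q0, hq0⟩ := hQsne
    have hq0' : δ / 2 * A.card ≤
      (((side s A).filter (fun a => q0 * a ∈ side s A)).card : ℝ) := by
      rw [hQs] at hq0
      exact (Finset.mem_filter.1 hq0).2
    have hbig : δ / 2 * A.card ≤ ((side s A).card : ℝ) := by
      refine hq0'.trans ?_
      exact_mod_cast Finset.card_filter_le _ _
    have hpos : 0 < ((side s A).card : ℝ) := lt_of_lt_of_le (by positivity) hbig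
    have hne : (side s A).Nonempty := Finset.card_pos.1 (by exact_mod_cast hpos)
    refine ⟨s, hs, hne, ?_, Qs s, ?_, ?_⟩
    · refine le_trans ?_ hbig
      gcongr
    · intro q hq
      rw [hQs] at hq
      obtain ⟨h1, h2⟩ := Finset.mem_filter.1 hq
      refine ⟨(hQ q h1).1, le_trans ?_ h2⟩
      gcongr
    · have rS : (1 : ℝ) ≤ (side s A).card := by exact_mod_cast Finset.card_pos.2 hne
      have h1 : Real.log (side s A).card ≤ Real.log A.card :=
        Real.log_le_log (by linarith) rSA
      have h2 : (Q.card : ℝ) ≤ 2 * (Qs s).card := by exact_mod_cast hsQ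
      have h3 : θ * Real.log (side s A).card ≤ θ * Real.log A.card := by gcongr
      linarith

end Pool.Agent.Helper78.PQ

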